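import Pool.Agent.N93.VNum

/-!
# The v-number of a squarefree monomial ideal can exceed the depth by any amount

The Stanley-Reisner ideal of the disjoint union of the boundaries of two simplices with `d + 1`
vertices has v-number `d`; the depth of its quotient ring is at most `1`.
-/

set_option autoImplicit false

namespace Pool.Agent.Results.MP_d06a13_ag.TwoSpheres

open MvPolynomial

universe u

/-- `I` is a squarefree monomial ideal: a proper ideal generated by squarefree monomials. -/
def IsSquarefreeMonomialIdeal {K : Type u} [Field K] {n : ℕ}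
    (I : Ideal (MvPolynomial (Fin n) K)) : Prop :=
  I ≠ ⊤ ∧ ∃ E : Set (Finset (Fin n)), I = Ideal.span ((fun A => ∏ i ∈ A, X i) '' E)

/-- The v-number of `I`: the least `e` for which there are a homogeneous `f` of degree `e` and an
associated prime `p` of `I` with `(I : f) = p`. -/
noncomputable def vNumber {K : Type u} [Field K] {n : ℕ} (I : Ideal (MvPolynomial (Fin n) K)) :
    ℕ∞ :=
  ⨅ (e : ℕ) (_ : ∃ f : MvPolynomial (Fin n) K, f.IsHomogeneous e ∧
    ∃ p ∈ associatedPrimes (MvPolynomial (Fin n) K) (MvPolynomial (Fin n) K ⧸ I),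
      I.colon {f} = p), (e : ℕ∞)

/-- The depth of `K[x_1, …, x_n] ⧸ I`: the supremum of the lengths of the regular sequences on
`K[x_1, …, x_n] ⧸ I` all of whose terms lie in `(x_1, …, x_n)`. -/
noncomputable def depthQuot {K : Type u} [Field K] {n : ℕ} (I : Ideal (MvPolynomial (Fin n) K)) :
    ℕ∞ :=
  ⨆ (rs : List (MvPolynomial (Fin n) K))
    (_ : (∀ x ∈ rs, x ∈ Ideal.span (Set.range (X : Fin n → MvPolynomial (Fin n) K))) ∧
      RingTheory.Sequence.IsRegular (MvPolynomial (Fin n) K ⧸ I) rs), (rs.length : ℕ∞)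

open Pool.Agent.N93.VNum in
/-- **Answer (no) to the question.** For every field `K` and every `d ≥ 1` there is a squarefree
monomial ideal `I` of `K[x_1, …, x_{2d+2}]` with `v(I) = d` and `depth (K[x] ⧸ I) ≤ 1`; so
`v(I) > depth (K[x] ⧸ I)` for `d ≥ 2`. -/
theorem result (K : Type u) [Field K] (d : ℕ) (hd : 1 ≤ d) :
    ∃ I : Ideal (MvPolynomial (Fin (2 * d + 2)) K), IsSquarefreeMonomialIdeal I ∧
      vNumber I = d ∧ depthQuot I ≤ 1 := by
  classical
  let L : Fin (2 * d + 2) → Prop := fun i => (i : ℕ) < d + 1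
  have hL : (Finset.univ.filter L).card = d + 1 := by
    have := Fin.card_filter_val_lt (n := 2 * d + 2) (m := d + 1)
    rw [this]
    omega
  have hR : (Finset.univ.filter fun i => ¬ L i).card = d + 1 := by
    have h1 := Finset.card_filter_add_card_filter_not (s := (Finset.univ : Finset (Fin (2 * d + 2)))) L
    rw [hL, Finset.card_univ, Fintype.card_fin] at h1
    omega
  have hL0 : L ⟨0, by omega⟩ := by show (0 : ℕ) < d + 1; omega
  have hR0 : ¬ L ⟨d + 1, by omega⟩ := by show ¬ (d + 1 < d + 1); omega
  refine ⟨II K L, ⟨?_, gens L, rfl⟩, ?_, ?_⟩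
  · intro h
    rw [Ideal.eq_top_iff_one] at h
    exact one_notMem_II ⟨_, hL0⟩ ⟨_, hR0⟩ h
  · apply le_antisymm
    · refine iInf₂_le_of_le d ⟨∏ i ∈ (Finset.univ.filter L).erase ⟨0, by omega⟩, X i, ?_, ?_⟩ le_rfl
      · have h1 := IsHomogeneous.prod (R := K) ((Finset.univ.filter L).erase ⟨0, by omega⟩)
          (fun i => (X i : MvPolynomial (Fin (2 * d + 2)) K)) (fun _ => 1)
          (fun i _ => isHomogeneous_X K i)
        rw [Finset.sum_const, smul_eq_mul, mul_one,
          Finset.card_erase_of_mem (Finset.mem_filter.2 ⟨Finset.mem_univ _, hL0⟩), hL,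
          Nat.add_sub_cancel] at h1
        exact h1
      · have h2 := colon_eq (K := K) (L := L) (by omega) ⟨_, hR0⟩ ⟨0, by omega⟩ hL0
        refine ⟨_, ?_, rfl⟩
        rw [h2]
        refine ⟨span_X_isPrime _, Ideal.Quotient.mk (II K L)
          (∏ i ∈ (Finset.univ.filter L).erase ⟨0, by omega⟩, X i), ?_⟩
        have h3 : (⊥ : Submodule (MvPolynomial (Fin (2 * d + 2)) K) _).colon
            {Ideal.Quotient.mk (II K L)
              (∏ i ∈ (Finset.univ.filter L).erase ⟨0, by omega⟩, X i)} =
            (II K L).colon {(∏ i ∈ (Finset.univ.filter L).erase ⟨0, by omega⟩, X i)} := by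
          ext g
          rw [Submodule.mem_colon_singleton, Submodule.mem_colon_singleton, smul_eq_mul,
            Submodule.mem_bot, ← Ideal.Quotient.eq_zero_iff_mem]
          rfl
        rw [h3, h2, (span_X_isPrime _).radical]
    · refine le_iInf₂ fun e he => ?_
      obtain ⟨f, hf, p, hp, hfp⟩ := he
      have h1 : ((II K L).colon {f}).IsPrime := by
        rw [hfp]
        exact hp.isPrime
      have := v_ge (K := K) (L := L) hd hL.ge hR.ge hf h1
      exact_mod_cast this
  · refine iSup₂_le fun rs hrs => ?_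
    have := length_le_one (K := K) (L := L) (by omega) (by omega) rs hrs.1
      hrs.2.toIsWeaklyRegular
    exact_mod_cast this

end Pool.Agent.Results.MP_d06a13_ag.TwoSpheres
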